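import Pool.Agent.Run7.h680.DT.Stm

/-! # Piece VSX of project DT (helper680): a virtual arc removes a red edge (helper299) -/

set_option autoImplicit false

namespace Pool.Agent.Run7.h299.DT

open SimpleGraph Pool.Agent.Run7.h680.DT

variable {V : Type}

theorem two_sides {T : SimpleGraph V} (hT : T.Preconnected) (x y w : V) :
    (T.deleteEdges {s(x, y)}).Reachable w x ∨ (T.deleteEdges {s(x, y)}).Reachable w y := by
  obtain ⟨p⟩ := hT w x
  induction p with
  | nil => exact Or.inl (Reachable.refl _)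
  | @cons a b c h p ih =>
    by_cases he : s(a, b) = s(c, y)
    · rw [Sym2.eq_iff] at he
      rcases he with ⟨h1, _⟩ | ⟨h1, _⟩
      · left; rw [h1]
      · right; rw [h1]
    · have hadj : (T.deleteEdges {s(c, y)}).Adj a b := by
        rw [deleteEdges_adj]
        exact ⟨h, he⟩
      rcases ih with ih | ih
      · exact Or.inl (hadj.reachable.trans ih)
      · exact Or.inr (hadj.reachable.trans ih)

theorem swap_isTree {T : SimpleGraph V} (hT : T.IsTree) {x y u v r : V}
    (hu : ¬ (T.deleteEdges {s(x, y)}).Reachable u r)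
    (hv : (T.deleteEdges {s(x, y)}).Reachable v r) :
    (swap T s(x, y) s(u, v)).IsTree := by
  have huv : ¬ (T.deleteEdges {s(x, y)}).Reachable u v := fun h => hu (h.trans hv)
  have hpre := hT.1.preconnected
  have hac : (T.deleteEdges {s(x, y)}).IsAcyclic := hT.2.anti (deleteEdges_le _)
  have hside : ∀ w, (T.deleteEdges {s(x, y)}).Reachable w u ∨
      (T.deleteEdges {s(x, y)}).Reachable w v := by
    intro w
    rcases two_sides hpre x y w with h1 | h1 <;> rcases two_sides hpre x y u with h2 | h2 <;>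
      rcases two_sides hpre x y v with h3 | h3
    · exact absurd (h2.trans h3.symm) huv
    · exact Or.inl (h1.trans h2.symm)
    · exact Or.inr (h1.trans h3.symm)
    · exact absurd (h2.trans h3.symm) huv
    · exact absurd (h2.trans h3.symm) huv
    · exact Or.inr (h1.trans h3.symm)
    · exact Or.inl (h1.trans h2.symm)
    · exact absurd (h2.trans h3.symm) huv
  have hne : u ≠ v := fun h => huv (h ▸ Reachable.refl _)
  have hle : T.deleteEdges {s(x, y)} ≤ swap T s(x, y) s(u, v) := le_sup_left
  have hadj : (swap T s(x, y) s(u, v)).Adj u v := by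
    unfold swap
    rw [sup_adj, fromEdgeSet_adj]
    exact Or.inr ⟨rfl, hne⟩
  refine ⟨?_, ?_⟩
  · rw [connected_iff_exists_forall_reachable]
    refine ⟨v, fun w => ?_⟩
    rcases hside w with h | h
    · exact (h.mono hle).symm |> fun h' => hadj.symm.reachable.trans h'
    · exact (h.mono hle).symm
  · exact IsAcyclic.sup_edge_of_not_reachable huv hac

/-- arcs outside of the lower part stay -/
theorem arc_path {T : SimpleGraph V} (hT : T.IsAcyclic) {e : Sym2 V} {r p q : V}
    (hp : (T.deleteEdges {e}).Reachable p r) (hA : Arc T r p q) :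
    s(p, q) ≠ e ∧ ((T.deleteEdges {e}).deleteEdges {s(p, q)}).Reachable q r := by
  classical
  obtain ⟨hadj, hq⟩ := hA
  -- a path from `p` to `r` avoiding `e`
  obtain ⟨P, hP⟩ := hp.exists_isPath
  obtain ⟨W, hW⟩ := hq.exists_isPath
  have leP : T.deleteEdges {e} ≤ T := deleteEdges_le _
  have leW : T.deleteEdges {s(p, q)} ≤ T := deleteEdges_le _
  have hPm : (P.mapLe leP).IsPath := hP.mapLe leP
  have hWm : (W.mapLe leW).IsPath := hW.mapLe leW
  have hbr : T.IsBridge s(p, q) := isAcyclic_iff_forall_isBridge.1 hT (by simpa using hadj)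
  have hnot : p ∉ (W.mapLe leW).support := by
    intro hmem
    have hmem' : p ∈ W.support := by simpa using hmem
    exact (isBridge_iff.1 hbr) ((W.takeUntil p hmem').reachable.symm)
  have hcons : (Walk.cons hadj (W.mapLe leW)).IsPath := by
    rw [Walk.cons_isPath_iff]
    exact ⟨hWm, hnot⟩
  have huniq : (⟨_, hPm⟩ : T.Path p r) = ⟨_, hcons⟩ := (isAcyclic_iff_path_unique.1 hT) _ _
  have heq : P.mapLe leP = Walk.cons hadj (W.mapLe leW) := congrArg Subtype.val huniq
  have hedges : ∀ e' ∈ (Walk.cons hadj (W.mapLe leW)).edges, e' ≠ e := by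
    intro e' he'
    rw [← heq] at he'
    have h1 : e' ∈ P.edges := by simpa using he'
    have h2 := P.edges_subset_edgeSet h1
    rw [edgeSet_deleteEdges] at h2
    exact fun h => h2.2 (by simpa using h)
  refine ⟨hedges _ (by simp), ?_⟩
  refine ⟨W.transfer _ fun e' he' => ?_⟩
  have h1 := W.edges_subset_edgeSet he'
  rw [edgeSet_deleteEdges] at h1
  rw [edgeSet_deleteEdges, edgeSet_deleteEdges]
  refine ⟨⟨h1.1, ?_⟩, h1.2⟩
  have h2 := hedges e' (by
    rw [Walk.edges_cons]
    refine List.mem_cons_of_mem _ ?_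
    simpa using he')
  simpa using h2

theorem arc_low {T : SimpleGraph V} (hT : T.IsAcyclic) {e : Sym2 V} {r p q : V}
    (hp : (T.deleteEdges {e}).Reachable p r) (hA : Arc T r p q) :
    (T.deleteEdges {e}).Reachable q r :=
  (arc_path hT hp hA).2.mono (deleteEdges_le _)

theorem arc_keep {T : SimpleGraph V} (hT : T.IsAcyclic) {e g : Sym2 V} {r p q : V}
    (hp : (T.deleteEdges {e}).Reachable p r) (hA : Arc T r p q) :
    Arc (swap T e g) r p q := by
  obtain ⟨h1, h2⟩ := arc_path hT hp hA
  refine ⟨?_, ?_⟩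
  · unfold swap
    rw [sup_adj, deleteEdges_adj]
    exact Or.inl ⟨hA.1, h1⟩
  · exact h2.mono (deleteEdges_mono le_sup_left)

theorem cross {Q : SimpleGraph V} (D : V → Prop) {z w : V} (hzw : Q.Reachable w z) (hz : D z)
    (hw : ¬ D w) : ∃ u v, Q.Adj u v ∧ D u ∧ ¬ D v ∧ Q.Reachable w u ∧
      (Q.IsAcyclic → ¬ (Q.deleteEdges {s(u, v)}).Reachable w z) := by
  classical
  obtain ⟨p, hp⟩ := hzw.symm.exists_isPath
  obtain ⟨d, hd, h1, h2⟩ := p.exists_boundary_dart {w | D w} hz hw
  refine ⟨d.fst, d.snd, d.adj, h1, h2, ?_, fun hac hr => ?_⟩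
  · exact (p.dropUntil d.fst (p.dart_fst_mem_support_of_mem_darts hd)).reachable.symm
  · rw [reachable_deleteEdges_iff_exists_walk] at hr
    obtain ⟨q, hq⟩ := hr
    have h3 : (⟨p, hp⟩ : Q.Path z w) = q.reverse.toPath := (isAcyclic_iff_path_unique.1 hac) _ _
    have h4 : p = q.reverse.toPath.1 := congrArg Subtype.val h3
    have h5 : s(d.fst, d.snd) ∈ p.edges :=
      (List.mem_map_of_mem (f := Dart.edge) hd : d.edge ∈ p.edges)
    rw [h4] at h5
    have h6 := Walk.edges_toPath_subset_edges _ h5
    rw [Walk.edges_reverse, List.mem_reverse] at h6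
    exact hq h6

theorem reach_del {Q : SimpleGraph V} {p q u v : V} (h : Q.Reachable p q)
    (hu : ¬ Q.Reachable p u) : (Q.deleteEdges {s(u, v)}).Reachable p q := by
  classical
  obtain ⟨W⟩ := h
  rw [reachable_deleteEdges_iff_exists_walk]
  refine ⟨W, fun hmem => hu ?_⟩
  exact (W.takeUntil u (W.fst_mem_support_of_mem_edges hmem)).reachable

theorem legal_swap {m : ℕ} {T : Fin m → SimpleGraph V} (hT : ∀ i, (T i).IsTree) {i : Fin m}
    {e g : Sym2 V} {Q Q' : SimpleGraph V} {l : ℕ → V} {n a : ℕ} (hleg : Legal T Q l n)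
    (hn : n ≤ a + 1)
    (hlow : ∀ b, b < a → ∀ w, Q.Reachable (l b) w → ((T i).deleteEdges {e}).Reachable w (l 0))
    (hle : Q' ≤ Q) (hQ : ∀ b, b < a → ∀ w, Q.Reachable (l b) w → Q'.Reachable (l b) w) :
    Legal (Function.update T i (swap (T i) e g)) Q' l n := by
  refine ⟨fun b hb b' hb' h => hleg.1 b hb b' hb' (h.mono hle), fun b hb0 hb => ?_⟩
  obtain ⟨j, x, ⟨b', hb', hx⟩, hA⟩ := hleg.2 b hb0 hb
  refine ⟨j, x, ⟨b', hb', hQ b' (by omega) x hx⟩, ?_⟩
  by_cases hj : j = i
  · subst hj
    rw [Function.update_self]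
    exact arc_keep (hT j).2 (hlow b' (by omega) x hx) hA
  · rw [Function.update_of_ne hj]
    exact hA

theorem exch1 {G : SimpleGraph V} {m : ℕ} (c : Cfg G m) (i : Fin m) {x y u v : V}
    (hT : (swap (c.T i) s(x, y) s(u, v)).IsTree) (hF : ¬ (c.F i).Adj x y) (hR : c.R.Adj u v) :
    ∃ c' : Cfg G m, c'.T = Function.update c.T i (swap (c.T i) s(x, y) s(u, v)) ∧
      c'.R = c.R.deleteEdges {s(u, v)} := by
  classical
  have hnF : ∀ j, ¬ (c.F j).Adj u v := fun j h => c.dR j u v h hR
  have hnF' : ∀ j p q, s(p, q) = s(u, v) → ¬ (c.F j).Adj p q := by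
    intro j p q h hadj
    rw [Sym2.eq_iff] at h
    rcases h with ⟨rfl, rfl⟩ | ⟨rfl, rfl⟩
    · exact hnF j hadj
    · exact hnF j hadj.symm
  refine ⟨{
    T := Function.update c.T i (swap (c.T i) s(x, y) s(u, v))
    F := Function.update c.F i (c.F i ⊔ fromEdgeSet {s(u, v)})
    R := c.R.deleteEdges {s(u, v)}
    tree := ?_
    le := ?_
    dF := ?_
    dR := ?_
    edge := ?_ }, rfl, rfl⟩
  · intro j
    by_cases hj : j = i
    · subst hj; rw [Function.update_self]; exact hT
    · rw [Function.update_of_ne hj]; exact c.tree j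
  · intro j p q
    by_cases hj : j = i
    · subst hj
      rw [Function.update_self, Function.update_self]
      unfold swap
      rw [sup_adj, sup_adj, deleteEdges_adj]
      rintro (h | h)
      · left
        refine ⟨c.le _ _ _ h, fun h' => ?_⟩
        have h'' : s(p, q) = s(x, y) := h'
        rw [Sym2.eq_iff] at h''
        rcases h'' with ⟨rfl, rfl⟩ | ⟨rfl, rfl⟩
        · exact hF h
        · exact hF h.symm
      · exact Or.inr h
    · rw [Function.update_of_ne hj, Function.update_of_ne hj]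
      exact c.le j p q
  · intro j j' p q
    by_cases hj : j = i <;> by_cases hj' : j' = i
    · intro _ _; rw [hj, hj']
    · subst hj
      rw [Function.update_self, Function.update_of_ne hj', sup_adj, fromEdgeSet_adj]
      rintro (h | h) h'
      · exact c.dF _ _ _ _ h h'
      · exact absurd h' (hnF' _ _ _ h.1)
    · subst hj'
      rw [Function.update_self, Function.update_of_ne hj, sup_adj, fromEdgeSet_adj]
      rintro h (h' | h')
      · exact c.dF _ _ _ _ h h'
      · exact absurd h (hnF' _ _ _ h'.1)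
    · rw [Function.update_of_ne hj, Function.update_of_ne hj']
      exact c.dF j j' p q
  · intro j p q
    rw [deleteEdges_adj]
    by_cases hj : j = i
    · subst hj
      rw [Function.update_self, sup_adj, fromEdgeSet_adj]
      rintro (h | h) h'
      · exact c.dR _ _ _ h h'.1
      · exact h'.2 h.1
    · rw [Function.update_of_ne hj]
      intro h h'
      exact c.dR _ _ _ h h'.1
  · intro p q
    rw [c.edge p q, deleteEdges_adj]
    constructor
    · rintro (h | ⟨j, h⟩)
      · by_cases he : s(p, q) = s(u, v)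
        · right
          refine ⟨i, ?_⟩
          rw [Function.update_self, sup_adj, fromEdgeSet_adj]
          exact Or.inr ⟨he, h.ne⟩
        · exact Or.inl ⟨h, he⟩
      · right
        refine ⟨j, ?_⟩
        by_cases hj : j = i
        · subst hj
          rw [Function.update_self, sup_adj]
          exact Or.inl h
        · rw [Function.update_of_ne hj]
          exact h
    · rintro (h | ⟨j, h⟩)
      · exact Or.inl h.1
      · by_cases hj : j = i
        · subst hj
          rw [Function.update_self, sup_adj, fromEdgeSet_adj] at h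
          rcases h with h | h
          · exact Or.inr ⟨_, h⟩
          · left
            have h1 : s(p, q) = s(u, v) := h.1
            rw [Sym2.eq_iff] at h1
            rcases h1 with ⟨rfl, rfl⟩ | ⟨rfl, rfl⟩
            · exact hR
            · exact hR.symm
        · rw [Function.update_of_ne hj] at h
          exact Or.inr ⟨j, h⟩

theorem exch2 {G : SimpleGraph V} {m : ℕ} (c : Cfg G m) (i j : Fin m) (hij : j ≠ i)
    {x y u v : V} (hT : (swap (c.T i) s(x, y) s(u, v)).IsTree) (hF : ¬ (c.F i).Adj x y)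
    (hg : (c.F j).Adj u v) :
    ∃ c' : Cfg G m, c'.T = Function.update c.T i (swap (c.T i) s(x, y) s(u, v)) ∧
      c'.R = c.R ∧ ¬ (c'.F j).Adj u v := by
  classical
  have heq : ∀ (H : SimpleGraph V) p q, s(p, q) = s(u, v) → (H.Adj p q ↔ H.Adj u v) := by
    intro H p q h
    rw [Sym2.eq_iff] at h
    rcases h with ⟨rfl, rfl⟩ | ⟨rfl, rfl⟩
    · exact Iff.rfl
    · exact adj_comm _ _ _
  have hFi : ¬ (c.F i).Adj u v := fun h => hij (c.dF _ _ _ _ hg h)
  set F' : Fin m → SimpleGraph V := fun t => if t = i then c.F i ⊔ fromEdgeSet {s(u, v)} else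
    (c.F t).deleteEdges {s(u, v)} with hF'
  have hFi' : ∀ p q, (F' i).Adj p q ↔ (c.F i).Adj p q ∨ (s(p, q) = s(u, v) ∧ p ≠ q) := by
    intro p q
    simp only [hF', if_true, sup_adj, fromEdgeSet_adj, Set.mem_singleton_iff]
  have hFt : ∀ t, t ≠ i → ∀ p q, (F' t).Adj p q ↔ (c.F t).Adj p q ∧ s(p, q) ≠ s(u, v) := by
    intro t ht p q
    simp only [hF', if_neg ht, deleteEdges_adj, Set.mem_singleton_iff, ne_eq]
  refine ⟨{
    T := Function.update c.T i (swap (c.T i) s(x, y) s(u, v))
    F := F'
    R := c.R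
    tree := ?_
    le := ?_
    dF := ?_
    dR := ?_
    edge := ?_ }, rfl, rfl, ?_⟩
  · intro t
    by_cases ht : t = i
    · subst ht; rw [Function.update_self]; exact hT
    · rw [Function.update_of_ne ht]; exact c.tree t
  · intro t p q
    by_cases ht : t = i
    · subst ht
      rw [Function.update_self, hFi']
      unfold swap
      rw [sup_adj, deleteEdges_adj, fromEdgeSet_adj]
      rintro (h | h)
      · left
        refine ⟨c.le _ _ _ h, fun h' => ?_⟩
        have h'' : s(p, q) = s(x, y) := h'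
        rw [Sym2.eq_iff] at h''
        rcases h'' with ⟨rfl, rfl⟩ | ⟨rfl, rfl⟩
        · exact hF h
        · exact hF h.symm
      · exact Or.inr h
    · rw [Function.update_of_ne ht, hFt t ht]
      intro h
      exact c.le t p q h.1
  · intro t t' p q
    by_cases ht : t = i <;> by_cases ht' : t' = i
    · intro _ _; rw [ht, ht']
    · subst ht
      rw [hFi', hFt t' ht']
      rintro (h | h) h'
      · exact c.dF _ _ _ _ h h'.1
      · exact absurd h.1 h'.2
    · subst ht'
      rw [hFi', hFt t ht]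
      rintro h (h' | h')
      · exact c.dF _ _ _ _ h.1 h'
      · exact absurd h'.1 h.2
    · rw [hFt t ht, hFt t' ht']
      intro h h'
      exact c.dF t t' p q h.1 h'.1
  · intro t p q
    by_cases ht : t = i
    · subst ht
      rw [hFi']
      rintro (h | h)
      · exact c.dR _ _ _ h
      · rw [heq c.R p q h.1]
        exact c.dR _ _ _ hg
    · rw [hFt t ht]
      intro h
      exact c.dR _ _ _ h.1
  · intro p q
    rw [c.edge p q]
    refine or_congr_right ?_
    constructor
    · rintro ⟨t, h⟩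
      by_cases he : s(p, q) = s(u, v)
      · exact ⟨i, (hFi' p q).2 (Or.inr ⟨he, h.ne⟩)⟩
      · by_cases ht : t = i
        · subst ht
          exact ⟨t, (hFi' p q).2 (Or.inl h)⟩
        · exact ⟨t, (hFt t ht p q).2 ⟨h, he⟩⟩
    · rintro ⟨t, h⟩
      by_cases ht : t = i
      · subst ht
        rcases (hFi' p q).1 h with h | h
        · exact ⟨t, h⟩
        · exact ⟨j, (heq _ p q h.1).2 hg⟩
      · exact ⟨t, ((hFt t ht p q).1 h).1⟩
  · intro h
    exact ((hFt j hij u v).1 h).2 rfl

theorem t_VSX : S_VSX := by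
  classical
  intro V _ G m c Q l a
  induction a using Nat.strong_induction_on generalizing c with
  | _ a ih =>
  intro i x y z hQ hleg hxy hF hz hzD hlow
  by_cases hD : ((c.T i).deleteEdges {s(x, y)}).Reachable (l a) (l 0)
  · -- `l a` is not below
    obtain ⟨u, v, huv, hu, hv, hru, hsep⟩ := cross
      (fun w => ¬ ((c.T i).deleteEdges {s(x, y)}).Reachable w (l 0)) hz hzD (not_not.2 hD)
    obtain ⟨c', hc'T, hc'R⟩ := exch1 c i (swap_isTree (c.tree i) hu (not_not.1 hv)) hF
      (hQ u v huv)
    refine ⟨a, u, v, c', le_rfl, huv, hru, hc'R, ?_, fun _ hac => hsep hac⟩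
    rw [hc'T]
    refine legal_swap c.tree hleg le_rfl hlow (deleteEdges_le _) fun b hb w hw => ?_
    refine reach_del hw fun hbu => ?_
    exact hleg.1 a (Nat.lt_succ_self a) b hb (hbu.trans hru.symm)
  · -- `l a` is below
    have ha : 0 < a := by
      rcases Nat.eq_zero_or_pos a with h | h
      · subst h
        exact absurd (Reachable.refl _) hD
      · exact h
    obtain ⟨j, xa, ⟨b', hb', hxa⟩, hA⟩ := hleg.2 a ha (Nat.lt_succ_self a)
    have hxaD := hlow b' hb' xa hxa
    have hji : j ≠ i := by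
      intro h
      subst h
      exact hD (arc_low (c.tree j).2 hxaD hA)
    have hbr : (c.T j).IsBridge s(xa, l a) :=
      isAcyclic_iff_forall_isBridge.1 (c.tree j).2 (by simpa using hA.1)
    have hxag : ¬ ((c.T j).deleteEdges {s(xa, l a)}).Reachable xa (l 0) := by
      intro h
      exact (isBridge_iff.1 hbr) (h.trans hA.2.symm)
    -- the least index
    have hex : ∃ b, ∃ w, Q.Reachable (l b) w ∧
        ¬ ((c.T j).deleteEdges {s(xa, l a)}).Reachable w (l 0) := ⟨b', xa, hxa, hxag⟩
    obtain ⟨z₁, hz₁, hz₁D⟩ := Nat.find_spec hex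
    set a₁ := Nat.find hex with ha₁
    have ha₁b : a₁ ≤ b' := Nat.find_min' hex ⟨xa, hxa, hxag⟩
    have ha₁a : a₁ < a := by omega
    have hlow₁ : ∀ b, b < a₁ → ∀ w, Q.Reachable (l b) w →
        ((c.T j).deleteEdges {s(xa, l a)}).Reachable w (l 0) := by
      intro b hb w hw
      by_contra hcon
      exact Nat.find_min hex hb ⟨w, hw, hcon⟩
    have hleg₁ : Legal c.T Q l (a₁ + 1) :=
      ⟨fun b hb b'' hb'' => hleg.1 b (by omega) b'' hb'', fun b hb0 hb => hleg.2 b hb0 (by omega)⟩
    by_cases hg : (c.F j).Adj xa (l a)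
    · -- the arc is real: exchange
      have hT' : (swap (c.T i) s(x, y) s(xa, l a)).IsTree := by
        have e : s(xa, l a) = s(l a, xa) := Sym2.eq_swap
        rw [e]
        exact swap_isTree (c.tree i) hD hxaD
      obtain ⟨c₁, hc₁T, hc₁R, hc₁F⟩ := exch2 c i j hji hT' hF hg
      have hc₁Tj : c₁.T j = c.T j := by rw [hc₁T, Function.update_of_ne hji]
      have hleg₂ : Legal c₁.T Q l (a₁ + 1) := by
        rw [hc₁T]
        exact legal_swap c.tree hleg₁ (by omega) hlow le_rfl fun b _ w hw => hw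
      obtain ⟨a', u, v, c', h1, h2, h3, h4, h5, h6⟩ := ih a₁ ha₁a c₁ j xa (l a) z₁
        (by rw [hc₁R]; exact hQ) hleg₂ (by rw [hc₁Tj]; exact hA.1) hc₁F hz₁
        (by rw [hc₁Tj]; exact hz₁D) (by rw [hc₁Tj]; exact hlow₁)
      refine ⟨a', u, v, c', by omega, h2, h3, ?_, h5, fun h => by omega⟩
      rw [h4, hc₁R]
    · obtain ⟨a', u, v, c', h1, h2, h3, h4, h5, h6⟩ := ih a₁ ha₁a c j xa (l a) z₁
        hQ hleg₁ hA.1 hg hz₁ hz₁D hlow₁
      exact ⟨a', u, v, c', by omega, h2, h3, h4, h5, fun h => by omega⟩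

end Pool.Agent.Run7.h299.DT
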